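import Pool.Agent.Run7.h602.Fin

set_option autoImplicit false

/-!
# A small ultrafilter number at a singular strong limit cardinal with the tree property at its
successor

The forcing relation is the one of `Pool.Agent.Helper669.Forcing`: a sentence of the forcing
language is the set of the conditions which force it. The definitions of the sentences are in
`Pool.Agent.Run7.h602.Defs`, `Pool.Agent.R588.S.Defs` and `Pool.Agent.Helper669.KDefs`.

The forcing `Q` of the proof has two steps. The first step adds, with conditions of size less than
`κ₀`, many subsets of `κ₀` together with a generic sequence, indexed by `μ × P_κ₀(ν)`, of small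
subsets of `κ₀`. In this extension, the normal measures on `P_κ₀(κ_n)` are chosen with the help of
master conditions which let this sequence diagonalise all names for members of certain complete
ultrafilters on small sets. The second step is the diagonal supercompact Prikry forcing for these
measures.
-/

namespace Pool.Agent.Results.MP_8470e1_lc.SmallUfNumberWithTP

open Cardinal Pool.Agent.Helper669.Forcing Pool.Agent.R588.S Run7.h602

/-- **A positive answer.** Let `κ₀ < κ₁ < ...` be cardinals such that `κ₀` is indestructibly
supercompact and `κ₁, κ₂, ...` are strongly compact, let `μ` be the successor of their supremum,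
and let `θ` be any cardinal. Then there is a forcing notion `Q` such that in the extension by `Q`:
`κ₀` is a strong limit cardinal of countable cofinality, `μ` is the cardinal successor of `κ₀`,
`2 ^ κ₀ > μ` (and also `2 ^ κ₀ > θ`), some uniform ultrafilter on `κ₀` has a base of size `μ` and
none has a base of size `κ₀`, so that the ultrafilter number of `κ₀` is its successor `μ`, and the
tree property holds at `μ`. -/
theorem result (κ : ℕ → Cardinal.{0}) (hmono : StrictMono κ)
    (h0 : IndestructiblySupercompact (κ 0)) (h : ∀ n, StronglyCompact (κ (n + 1)))
    (θ : Cardinal.{0}) :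
    ∃ (Q : Type) (_ : Preorder Q), Nonempty Q ∧ ∀ q : Q,
      q ∈ StrongLimitN Q (κ 0) ∧ q ∈ CofOmegaN Q (κ 0) ∧
      q ∈ IsSuccN Q (κ 0) (Order.succ (⨆ n, κ n)) ∧
      q ∈ PowerGt Q (κ 0) (Order.succ (⨆ n, κ n)) ∧ q ∈ PowerGt Q (κ 0) θ ∧
      q ∈ UfBase Q (κ 0).ord.ToType (Order.succ (⨆ n, κ n)).ord.ToType ∧
      q ∈ fnot (UfBase Q (κ 0).ord.ToType (κ 0).ord.ToType) ∧
      q ∈ TreePropN Q (κ 0) (Order.succ (⨆ n, κ n)) :=
  main κ hmono h0 h θ

end Pool.Agent.Results.MP_8470e1_lc.SmallUfNumberWithTP
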